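import Pool.Agent.R754.WX.Fa

set_option autoImplicit false

/-! # Franel's sum: exact identity and the number of Farey fractions -/

namespace Pool.Agent.Run7.h189.FD

open MeasureTheory Filter Topology Set
open H353.FB
open Pool.Agent.R305.FM (DD)

/-! ## ranks -/

lemma rank_sum {α : Type*} [LinearOrder α] (f : ℕ → ℝ) (S : Finset α) :
    ∑ r ∈ S, f ((S.filter (fun q => q ≤ r)).card) = ∑ k ∈ Finset.Icc 1 S.card, f k := by
  induction S using Finset.induction_on_max with
  | empty => simp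
  | insert a S ha ih =>
    have hna : a ∉ S := fun h => lt_irrefl _ (ha a h)
    rw [Finset.sum_insert hna, Finset.card_insert_of_notMem hna, Finset.sum_Icc_succ_top (by omega), ← ih,
      add_comm]
    congr 1
    · refine Finset.sum_congr rfl fun r hr => ?_
      congr 2
      ext q
      simp only [Finset.mem_filter, Finset.mem_insert]
      constructor
      · rintro ⟨h1 | h1, h2⟩
        · subst h1
          exact absurd (ha r hr) (not_lt.2 h2)
        · exact ⟨h1, h2⟩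
      · rintro ⟨h1, h2⟩
        exact ⟨Or.inr h1, h2⟩
    · congr 1
      rw [Finset.filter_true_of_mem, Finset.card_insert_of_notMem hna]
      intro q hq
      rw [Finset.mem_insert] at hq
      rcases hq with rfl | hq
      · exact le_rfl
      · exact (ha q hq).le

lemma max_sum (S : Finset ℚ) : ∑ r ∈ S, ∑ q ∈ S, max (r : ℝ) (q : ℝ) =
    2 * ∑ r ∈ S, (r : ℝ) * ((S.filter (fun q => q ≤ r)).card : ℝ) - ∑ r ∈ S, (r : ℝ) := by
  have h1 : ∀ r ∈ S, ∀ q ∈ S, max (r : ℝ) (q : ℝ) = (if q ≤ r then (r : ℝ) else 0) +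
      (if r ≤ q then (q : ℝ) else 0) - (if r = q then (r : ℝ) else 0) := by
    intro r _ q _
    rcases lt_trichotomy r q with h | h | h
    · rw [if_neg (not_le.2 h), if_pos h.le, if_neg h.ne, max_eq_right (by exact_mod_cast h.le)]
      ring
    · subst h
      simp
    · rw [if_pos h.le, if_neg (not_le.2 h), if_neg h.ne', max_eq_left (by exact_mod_cast h.le)]
      ring
  rw [Finset.sum_congr rfl fun r hr => Finset.sum_congr rfl (h1 r hr)]
  simp only [Finset.sum_sub_distrib, Finset.sum_add_distrib]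
  have h2 : ∀ r ∈ S, ∑ q ∈ S, (if q ≤ r then (r : ℝ) else 0) =
      (r : ℝ) * ((S.filter (fun q => q ≤ r)).card : ℝ) := by
    intro r _
    rw [← Finset.sum_filter, Finset.sum_const, nsmul_eq_mul, mul_comm]
  have h3 : ∑ r ∈ S, ∑ q ∈ S, (if r ≤ q then (q : ℝ) else 0) =
      ∑ r ∈ S, (r : ℝ) * ((S.filter (fun q => q ≤ r)).card : ℝ) := by
    rw [Finset.sum_comm]
    exact Finset.sum_congr rfl h2
  have h4 : ∑ r ∈ S, ∑ q ∈ S, (if r = q then (r : ℝ) else 0) = ∑ r ∈ S, (r : ℝ) := by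
    refine Finset.sum_congr rfl fun r hr => ?_
    rw [Finset.sum_ite_eq S r (fun _ => (r : ℝ)), if_pos hr]
  rw [h3, h4, Finset.sum_congr rfl h2]
  ring

/-! ## the integral -/

lemma step_int {r : ℝ} (h0 : 0 ≤ r) (h1 : r ≤ 1) (g : ℝ → ℝ) (hg : Continuous g) :
    ∫ t in (0:ℝ)..1, (if r ≤ t then (1:ℝ) else 0) * g t = ∫ t in r..1, g t := by
  have hi : IntervalIntegrable (fun t => (if r ≤ t then (1:ℝ) else 0) * g t) volume 0 1 := by
    rw [intervalIntegrable_iff_integrableOn_Ioc_of_le zero_le_one]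
    have : (fun t => (if r ≤ t then (1:ℝ) else 0) * g t) = Set.indicator (Ici r) g := by
      funext t
      by_cases h : r ≤ t <;> simp [h]
    rw [this]
    exact ((hg.integrableOn_Icc (a := 0) (b := 1)).mono_set Ioc_subset_Icc_self).indicator measurableSet_Ici
  have h01 : IntervalIntegrable (fun t => (if r ≤ t then (1:ℝ) else 0) * g t) volume 0 r :=
    hi.mono_set (by rw [uIcc_of_le h0, uIcc_of_le zero_le_one]; exact Icc_subset_Icc_right h1)
  have h12 : IntervalIntegrable (fun t => (if r ≤ t then (1:ℝ) else 0) * g t) volume r 1 :=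
    hi.mono_set (by rw [uIcc_of_le h1, uIcc_of_le zero_le_one]; exact Icc_subset_Icc_left h0)
  rw [← intervalIntegral.integral_add_adjacent_intervals h01 h12]
  have e1 : ∫ t in (0:ℝ)..r, (if r ≤ t then (1:ℝ) else 0) * g t = 0 := by
    rw [intervalIntegral.integral_of_le h0, integral_Ioc_eq_integral_Ioo]
    have : ∀ t ∈ Ioo (0:ℝ) r, (if r ≤ t then (1:ℝ) else 0) * g t = 0 := by
      intro t ht
      rw [if_neg (not_le.2 ht.2), zero_mul]
    rw [setIntegral_congr_fun measurableSet_Ioo this]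
    simp
  rw [e1, zero_add]
  apply intervalIntegral.integral_congr
  intro t ht
  rw [uIcc_of_le h1] at ht
  simp only
  rw [if_pos ht.1, one_mul]

lemma step_ii (r : ℝ) (g : ℝ → ℝ) (hg : Continuous g) :
    IntervalIntegrable (fun t => (if r ≤ t then (1:ℝ) else 0) * g t) volume 0 1 := by
  rw [intervalIntegrable_iff_integrableOn_Ioc_of_le zero_le_one]
  have : (fun t => (if r ≤ t then (1:ℝ) else 0) * g t) = Set.indicator (Ici r) g := by
    funext t
    by_cases h : r ≤ t <;> simp [h]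
  rw [this]
  exact ((hg.integrableOn_Icc (a := 0) (b := 1)).mono_set Ioc_subset_Icc_self).indicator measurableSet_Ici

/-- the kernel -/
lemma ker_int {r q : ℝ} (hr0 : 0 ≤ r) (hr1 : r ≤ 1) (hq0 : 0 ≤ q) (hq1 : q ≤ 1) :
    ∫ t in (0:ℝ)..1, ((if r ≤ t then (1:ℝ) else 0) - t) * ((if q ≤ t then (1:ℝ) else 0) - t) =
      1 / 3 - max r q + (r ^ 2 + q ^ 2) / 2 := by
  have hm0 : 0 ≤ max r q := le_max_of_le_left hr0
  have hm1 : max r q ≤ 1 := max_le hr1 hq1
  have e : ∀ t : ℝ, ((if r ≤ t then (1:ℝ) else 0) - t) * ((if q ≤ t then (1:ℝ) else 0) - t) =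
      (if max r q ≤ t then (1:ℝ) else 0) * 1 - (if r ≤ t then (1:ℝ) else 0) * t -
        (if q ≤ t then (1:ℝ) else 0) * t + t ^ 2 := by
    intro t
    by_cases h1 : r ≤ t <;> by_cases h2 : q ≤ t <;> simp [h1, h2] <;> ring
  simp_rw [e]
  have i1 := step_ii (max r q) (fun _ => 1) continuous_const
  have i2 := step_ii r (fun t => t) continuous_id
  have i3 := step_ii q (fun t => t) continuous_id
  have i4 : IntervalIntegrable (fun t : ℝ => t ^ 2) volume 0 1 := (continuous_pow 2).intervalIntegrable _ _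
  rw [intervalIntegral.integral_add ((i1.sub i2).sub i3) i4, intervalIntegral.integral_sub (i1.sub i2) i3,
    intervalIntegral.integral_sub i1 i2, step_int hm0 hm1 (fun _ => 1) continuous_const,
    step_int hr0 hr1 (fun t => t) continuous_id, step_int hq0 hq1 (fun t => t) continuous_id]
  simp only [integral_id, integral_pow, intervalIntegral.integral_const]
  norm_num
  ring

lemma sum_id {n : ℕ} (hn : 1 ≤ n) : ∑ r ∈ farey n, (r : ℝ) = (((farey n).card : ℝ) + 1) / 2 := by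
  rw [sum_farey_mertens n (fun r => (r : ℝ)), t1_card_eq, ← t1_sum_one hn, ← Finset.sum_add_distrib, Finset.sum_div]
  refine Finset.sum_congr rfl fun d hd => ?_
  rw [Finset.mem_Icc] at hd
  have hd0 : (d : ℝ) ≠ 0 := by
    have : (0:ℝ) < d := by exact_mod_cast hd.1
    exact this.ne'
  have h1 : ∑ h ∈ Finset.Icc 1 d, (((h : ℚ) / (d : ℚ) : ℚ) : ℝ) = (d + 1) / 2 := by
    have h2 : ∀ h ∈ Finset.Icc 1 d, (((h : ℚ) / (d : ℚ) : ℚ) : ℝ) = (1 / (d : ℝ)) * (h : ℝ) := by
      intro h _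
      push_cast
      ring
    rw [Finset.sum_congr rfl h2, ← Finset.mul_sum, (Pool.Agent.R754.WX.sum_sq_Icc d).1]
    field_simp
  rw [h1]
  ring

/-- the Franel sum -/
noncomputable def franel (n : ℕ) : ℝ :=
  ∑ r ∈ farey n, ((r : ℝ) - (((farey n).filter (fun q => q ≤ r)).card : ℝ) / ((farey n).card : ℝ)) ^ 2

lemma DD_expand (n : ℕ) : DD n = ((farey n).card : ℝ) ^ 2 / 3 -
    ∑ r ∈ farey n, ∑ q ∈ farey n, max (r : ℝ) (q : ℝ) + ((farey n).card : ℝ) * ∑ r ∈ farey n, (r : ℝ) ^ 2 := by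
  have h1 : DD n = ∫ t in (0:ℝ)..1, ∑ r ∈ farey n, ∑ q ∈ farey n,
      ((if (r : ℝ) ≤ t then (1:ℝ) else 0) - t) * ((if (q : ℝ) ≤ t then (1:ℝ) else 0) - t) := by
    unfold DD
    apply intervalIntegral.integral_congr
    intro t _
    simp only
    rw [← Finset.sum_mul_sum, ← sq]
    congr 1
    unfold cnt
    rw [Finset.sum_sub_distrib]
    simp
  rw [h1]
  have hii : ∀ r ∈ farey n, ∀ q ∈ farey n, IntervalIntegrable (fun t : ℝ =>
      ((if (r : ℝ) ≤ t then (1:ℝ) else 0) - t) * ((if (q : ℝ) ≤ t then (1:ℝ) else 0) - t)) volume 0 1 := by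
    intro r _ q _
    have e : (fun t : ℝ => ((if (r : ℝ) ≤ t then (1:ℝ) else 0) - t) * ((if (q : ℝ) ≤ t then (1:ℝ) else 0) - t)) =
      fun t : ℝ => (if max (r:ℝ) q ≤ t then (1:ℝ) else 0) * 1 - (if (r:ℝ) ≤ t then (1:ℝ) else 0) * t -
        (if (q:ℝ) ≤ t then (1:ℝ) else 0) * t + t ^ 2 := by
      funext t
      by_cases h1 : (r:ℝ) ≤ t <;> by_cases h2 : (q:ℝ) ≤ t <;> simp [h1, h2] <;> ring
    rw [e]
    exact (((step_ii (max (r:ℝ) q) (fun _ => 1) continuous_const).sub
      (step_ii r (fun t => t) continuous_id)).sub (step_ii q (fun t => t) continuous_id)).add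
      ((continuous_pow 2).intervalIntegrable _ _)
  have hsum : ∀ r ∈ farey n, IntervalIntegrable (fun t : ℝ => ∑ q ∈ farey n,
      ((if (r : ℝ) ≤ t then (1:ℝ) else 0) - t) * ((if (q : ℝ) ≤ t then (1:ℝ) else 0) - t)) volume 0 1 := by
    intro r hr
    have h := IntervalIntegrable.sum (farey n) (hii r hr)
    have e : (∑ q ∈ farey n, fun t : ℝ =>
        ((if (r : ℝ) ≤ t then (1:ℝ) else 0) - t) * ((if (q : ℝ) ≤ t then (1:ℝ) else 0) - t)) =
        fun t => ∑ q ∈ farey n,
        ((if (r : ℝ) ≤ t then (1:ℝ) else 0) - t) * ((if (q : ℝ) ≤ t then (1:ℝ) else 0) - t) := by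
      ext t; simp
    rw [← e]
    exact h
  rw [intervalIntegral.integral_finsetSum hsum]
  have h2 : ∀ r ∈ farey n, ∫ t in (0:ℝ)..1, ∑ q ∈ farey n,
      ((if (r : ℝ) ≤ t then (1:ℝ) else 0) - t) * ((if (q : ℝ) ≤ t then (1:ℝ) else 0) - t) =
      ∑ q ∈ farey n, (1 / 3 - max (r:ℝ) q + ((r:ℝ) ^ 2 + (q:ℝ) ^ 2) / 2) := by
    intro r hr
    rw [intervalIntegral.integral_finsetSum (hii r hr)]
    refine Finset.sum_congr rfl fun q hq => ?_
    have h3 := mem_farey.1 hr
    have h4 := mem_farey.1 hq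
    exact ker_int (by exact_mod_cast h3.1.le) (by exact_mod_cast h3.2.1) (by exact_mod_cast h4.1.le)
      (by exact_mod_cast h4.2.1)
  rw [Finset.sum_congr rfl h2]
  simp only [Finset.sum_add_distrib, Finset.sum_sub_distrib, Finset.sum_const, nsmul_eq_mul, add_div,
    ← Finset.sum_div, ← Finset.mul_sum]
  ring

lemma sum_Icc_sq (m : ℕ) : ∑ k ∈ Finset.Icc 1 m, (k : ℝ) ^ 2 = m * (m + 1) * (2 * m + 1) / 6 :=
  (Pool.Agent.R754.WX.sum_sq_Icc m).2

/-- Franel's identity -/
theorem franel_eq {n : ℕ} (hn : 1 ≤ n) : ((farey n).card : ℝ) * franel n = DD n - 1 / 3 := by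
  have hc : (0:ℝ) < (farey n).card := by exact_mod_cast t1_card_pos hn
  rw [DD_expand, max_sum, sum_id hn]
  have h1 : franel n = ∑ r ∈ farey n, (r : ℝ) ^ 2 -
      2 / ((farey n).card : ℝ) * ∑ r ∈ farey n, (r : ℝ) * (((farey n).filter (fun q => q ≤ r)).card : ℝ) +
      1 / ((farey n).card : ℝ) ^ 2 * ∑ r ∈ farey n, (((farey n).filter (fun q => q ≤ r)).card : ℝ) ^ 2 := by
    unfold franel
    rw [Finset.mul_sum, Finset.mul_sum, ← Finset.sum_sub_distrib, ← Finset.sum_add_distrib]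
    refine Finset.sum_congr rfl fun r _ => ?_
    field_simp
    ring
  rw [h1, rank_sum (fun k => (k : ℝ) ^ 2), sum_Icc_sq]
  field_simp
  ring

end Pool.Agent.Run7.h189.FD
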