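import Pool.Agent.Run7.h189.FD.A1

set_option autoImplicit false

/-! # From integrals to sums, and the number of Farey fractions -/

namespace Pool.Agent.Run7.h189.FD

open MeasureTheory Filter Topology Set
open H353.FB
open Pool.Agent.R305.FM (DD mu3 FI)

/-! ## the number of Farey fractions -/

/-- `∑_{d ≤ m} d` -/
noncomputable def Tm (m : ℕ) : ℝ := ∑ d ∈ Finset.Icc 1 m, (d : ℝ)

lemma Tm_eq (m : ℕ) : Tm m = m * (m + 1) / 2 := (Pool.Agent.R754.WX.sum_sq_Icc m).1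

lemma Tm_nonneg (m : ℕ) : 0 ≤ Tm m := by
  rw [Tm_eq]; positivity

lemma Tm_le (m : ℕ) : Tm m ≤ (m : ℝ) ^ 2 := by
  rw [Tm_eq]
  rcases Nat.eq_zero_or_pos m with rfl | h
  · simp
  · have : (1:ℝ) ≤ m := by exact_mod_cast h
    nlinarith

lemma card_tsum (n : ℕ) : ((farey n).card : ℝ) = ∑' e : ℕ, mu e * Tm (n / e) := by
  have h1 := sum_farey_moebius n (fun _ => 1)
  rw [Finset.sum_const, nsmul_eq_mul, mul_one] at h1
  rw [h1, tsum_eq_sum (s := Finset.Icc 1 n)]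
  · refine Finset.sum_congr rfl fun e _ => ?_
    unfold Tm
    congr 1
    refine Finset.sum_congr rfl fun d _ => by simp
  · intro e he
    rcases Nat.eq_zero_or_pos e with rfl | h0
    · simp [mu]
    · have h2 : n < e := by
        by_contra h
        exact he (Finset.mem_Icc.2 ⟨h0, by omega⟩)
      rw [Nat.div_eq_of_lt h2, Tm_eq]
      simp

lemma mu2 : ∑' e : ℕ, mu e * (1 / 2 * (1 / (e : ℝ) ^ 2)) = 3 / Real.pi ^ 2 := by
  have hs : 1 < (2 : ℂ).re := by norm_num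
  have h1 := ArithmeticFunction.LSeries_zeta_mul_Lseries_moebius hs
  have hz : ∑' n : ℕ, 1 / (n : ℝ) ^ 2 = Real.pi ^ 2 / 6 := hasSum_zeta_two.tsum_eq
  have h2 : LSeries (fun n => ((ArithmeticFunction.zeta n : ℕ) : ℂ)) 2 = ((∑' n : ℕ, 1 / (n : ℝ) ^ 2 : ℝ) : ℂ) := by
    unfold LSeries
    rw [Complex.ofReal_tsum]
    refine tsum_congr fun n => ?_
    rcases Nat.eq_zero_or_pos n with h0 | h0
    · subst h0
      simp
    · rw [LSeries.term_of_ne_zero (by omega)]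
      rw [ArithmeticFunction.zeta_apply_ne (by omega)]
      push_cast
      congr 1
      have : ((2 : ℕ) : ℂ) = 2 := by norm_num
      rw [← this, Complex.cpow_natCast]
  have h3 : LSeries (fun n => ((ArithmeticFunction.moebius n : ℤ) : ℂ)) 2 =
      ((∑' e : ℕ, mu e / (e : ℝ) ^ 2 : ℝ) : ℂ) := by
    unfold LSeries
    rw [Complex.ofReal_tsum]
    refine tsum_congr fun n => ?_
    rcases Nat.eq_zero_or_pos n with h0 | h0
    · subst h0
      simp [mu]
    · rw [LSeries.term_of_ne_zero (by omega)]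
      unfold mu
      push_cast
      congr 1
      have : ((2 : ℕ) : ℂ) = 2 := by norm_num
      rw [← this, Complex.cpow_natCast]
  have h4 : ((∑' n : ℕ, 1 / (n : ℝ) ^ 2 : ℝ) : ℂ) * ((∑' e : ℕ, mu e / (e : ℝ) ^ 2 : ℝ) : ℂ) = 1 := by
    rw [← h2, ← h3]
    exact h1
  have h5 : (∑' n : ℕ, 1 / (n : ℝ) ^ 2) * (∑' e : ℕ, mu e / (e : ℝ) ^ 2) = 1 := by exact_mod_cast h4
  rw [hz] at h5
  have h6 : ∑' e : ℕ, mu e * (1 / 2 * (1 / (e : ℝ) ^ 2)) = 1 / 2 * ∑' e : ℕ, mu e / (e : ℝ) ^ 2 := by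
    rw [← tsum_mul_left]
    refine tsum_congr fun e => by ring
  rw [h6]
  have hp : (0:ℝ) < Real.pi ^ 2 := by positivity
  field_simp
  field_simp at h5
  linarith

/-- `|F_n| / n² → 3/π²` -/
theorem card_lim : Tendsto (fun n : ℕ => ((farey n).card : ℝ) / (n : ℝ) ^ 2) atTop (𝓝 (3 / Real.pi ^ 2)) := by
  rw [← mu2]
  have h1 : (fun n : ℕ => ((farey n).card : ℝ) / (n : ℝ) ^ 2) = fun n : ℕ => ∑' e : ℕ, mu e * (Tm (n / e) / (n : ℝ) ^ 2) := by
    funext n
    rw [card_tsum, ← tsum_div_const]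
    refine tsum_congr fun e => by ring
  rw [h1]
  apply tendsto_tsum_of_dominated_convergence (bound := fun e : ℕ => 1 / (e : ℝ) ^ 2)
  · exact Real.summable_one_div_nat_pow.2 (by norm_num)
  · intro e
    apply Tendsto.const_mul
    rcases Nat.eq_zero_or_pos e with rfl | he
    · simp only [Nat.div_zero]
      rw [Tm_eq]
      simp
    have he0 : (0:ℝ) < e := by exact_mod_cast he
    -- floor(n/e)/n → 1/e
    have hf : Tendsto (fun n : ℕ => ((n / e : ℕ) : ℝ) / (n : ℝ)) atTop (𝓝 (1 / e)) := by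
      have h2 : Tendsto (fun n : ℕ => 1 / (e : ℝ) - 1 / (n : ℝ)) atTop (𝓝 (1 / e)) := by
        have := (tendsto_one_div_atTop_nhds_zero_nat (𝕜 := ℝ)).const_sub (1 / (e : ℝ))
        simpa using this
      refine tendsto_of_tendsto_of_tendsto_of_le_of_le' h2 tendsto_const_nhds ?_ ?_
      · filter_upwards [eventually_gt_atTop 0] with n hn
        have hn0 : (0:ℝ) < n := by exact_mod_cast hn
        rw [div_sub_div _ _ he0.ne' hn0.ne', div_le_div_iff₀ (by positivity) hn0]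
        have h3 : (n : ℝ) < e * ((n / e : ℕ) : ℝ) + e := by
          have := Nat.lt_mul_div_succ n he
          have h4 : (n : ℝ) < ((e * (n / e + 1) : ℕ) : ℝ) := by exact_mod_cast this
          push_cast at h4
          linarith
        nlinarith
      · filter_upwards [eventually_gt_atTop 0] with n hn
        have hn0 : (0:ℝ) < n := by exact_mod_cast hn
        rw [div_le_div_iff₀ hn0 he0, one_mul]
        exact_mod_cast Nat.div_mul_le_self n e
    have h5 : Tendsto (fun n : ℕ => 1 / 2 * ((((n / e : ℕ) : ℝ) / (n : ℝ)) ^ 2 +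
        (((n / e : ℕ) : ℝ) / (n : ℝ)) * (1 / (n : ℝ)))) atTop (𝓝 (1 / 2 * (1 / (e : ℝ) ^ 2))) := by
      have := ((hf.pow 2).add (hf.mul (tendsto_one_div_atTop_nhds_zero_nat (𝕜 := ℝ)))).const_mul (1 / 2)
      have e1 : 1 / 2 * ((1 / (e : ℝ)) ^ 2 + 1 / (e : ℝ) * 0) = 1 / 2 * (1 / (e : ℝ) ^ 2) := by
        rw [mul_zero, add_zero, div_pow, one_pow]
      rwa [e1] at this
    refine h5.congr' ?_
    filter_upwards [eventually_gt_atTop 0] with n hn
    have hn0 : (0:ℝ) < n := by exact_mod_cast hn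
    rw [Tm_eq]
    field_simp
  · refine Eventually.of_forall fun n e => ?_
    rw [norm_mul, Real.norm_eq_abs, Real.norm_eq_abs]
    have h2 := abs_mu_le e
    have h3 : |Tm (n / e) / (n : ℝ) ^ 2| ≤ 1 / (e : ℝ) ^ 2 := by
      rw [abs_of_nonneg (div_nonneg (Tm_nonneg _) (by positivity))]
      rcases Nat.eq_zero_or_pos e with rfl | he
      · simp [Tm_eq]
      rcases Nat.eq_zero_or_pos n with rfl | hn
      · simp
      have he0 : (0:ℝ) < e := by exact_mod_cast he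
      have hn0 : (0:ℝ) < n := by exact_mod_cast hn
      rw [div_le_div_iff₀ (by positivity) (by positivity), one_mul]
      have h4 : ((n / e : ℕ) : ℝ) * e ≤ n := by exact_mod_cast Nat.div_mul_le_self n e
      calc Tm (n / e) * (e : ℝ) ^ 2 ≤ ((n / e : ℕ) : ℝ) ^ 2 * (e : ℝ) ^ 2 := by
            gcongr
            exact Tm_le _
        _ = (((n / e : ℕ) : ℝ) * e) ^ 2 := by ring
        _ ≤ (n : ℝ) ^ 2 := by gcongr
    calc |mu e| * |Tm (n / e) / (n : ℝ) ^ 2| ≤ 1 * (1 / (e : ℝ) ^ 2) := by gcongr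
      _ = _ := one_mul _

lemma card_le (n : ℕ) : ((farey n).card : ℝ) ≤ (n : ℝ) ^ 2 := by
  have h1 : (farey n).card ≤ n * n := by
    unfold farey
    refine (Finset.card_filter_le _ _).trans (Finset.card_image_le.trans ?_)
    rw [Finset.card_product, Nat.card_Icc]
    simp
  rw [sq]
  exact_mod_cast h1

/-! ## from integrals to sums -/

lemma step_piece (f : ℕ → ℝ) {n : ℕ} (hn : 1 ≤ n) :
    IntervalIntegrable (fun u : ℝ => f ⌊u⌋₊ / u ^ 2) volume (n : ℝ) ((n + 1 : ℕ) : ℝ) ∧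
    ∫ u in (n : ℝ)..((n + 1 : ℕ) : ℝ), f ⌊u⌋₊ / u ^ 2 = f n * (1 / (n : ℝ) - 1 / ((n : ℝ) + 1)) := by
  have hn0 : (0:ℝ) < n := by exact_mod_cast hn
  have hle : (n : ℝ) ≤ ((n + 1 : ℕ) : ℝ) := by push_cast; linarith
  have hc : ContinuousOn (fun u : ℝ => f n / u ^ 2) (uIcc (n : ℝ) ((n + 1 : ℕ) : ℝ)) := by
    rw [uIcc_of_le hle]
    intro u hu
    have : 0 < u := lt_of_lt_of_le hn0 hu.1
    apply ContinuousAt.continuousWithinAt
    apply ContinuousAt.div continuousAt_const (by fun_prop) (by positivity)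
  have hci : IntervalIntegrable (fun u : ℝ => f n / u ^ 2) volume (n : ℝ) ((n + 1 : ℕ) : ℝ) :=
    hc.intervalIntegrable
  have hfl : ∀ u ∈ Ioo (n : ℝ) ((n + 1 : ℕ) : ℝ), f ⌊u⌋₊ / u ^ 2 = f n / u ^ 2 := by
    intro u hu
    have h1 : ⌊u⌋₊ = n := by
      rw [Nat.floor_eq_iff (by linarith [hu.1])]
      push_cast at hu
      exact ⟨hu.1.le, hu.2⟩
    rw [h1]
  have hae : ∀ᵐ u ∂(volume.restrict (Set.uIoc (n : ℝ) ((n + 1 : ℕ) : ℝ))),
      f n / u ^ 2 = f ⌊u⌋₊ / u ^ 2 := by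
    rw [uIoc_of_le hle, ← Measure.restrict_congr_set Ioo_ae_eq_Ioc]
    rw [ae_restrict_iff' measurableSet_Ioo]
    exact Eventually.of_forall fun u hu => (hfl u hu).symm
  refine ⟨hci.congr_ae hae, ?_⟩
  rw [← intervalIntegral.integral_congr_ae_restrict hae]
  have h2 : ∀ u ∈ uIcc (n : ℝ) ((n + 1 : ℕ) : ℝ), HasDerivAt (fun u : ℝ => -(f n) / u) (f n / u ^ 2) u := by
    intro u hu
    rw [uIcc_of_le hle] at hu
    have : 0 < u := lt_of_lt_of_le hn0 hu.1
    have h3 := (hasDerivAt_inv this.ne').const_mul (-(f n))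
    have h4 : (fun u : ℝ => -(f n) / u) = fun u : ℝ => -(f n) * u⁻¹ := by
      funext u; rw [div_eq_mul_inv]
    rw [h4]
    have h5 : f n / u ^ 2 = -f n * -(u ^ 2)⁻¹ := by ring
    rw [h5]
    exact h3
  rw [intervalIntegral.integral_eq_sub_of_hasDerivAt h2 hci]
  push_cast
  ring

/-- the integral of a step function against `u^{-2}` -/
lemma step_sum (f : ℕ → ℝ) (N : ℕ) :
    ∫ u in (1:ℝ)..((N + 1 : ℕ) : ℝ), f ⌊u⌋₊ / u ^ 2 =
      ∑ n ∈ Finset.Icc 1 N, f n * (1 / (n : ℝ) - 1 / ((n : ℝ) + 1)) := by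
  have h : ∀ N : ℕ, IntervalIntegrable (fun u : ℝ => f ⌊u⌋₊ / u ^ 2) volume (1:ℝ) ((N + 1 : ℕ) : ℝ) ∧
      ∫ u in (1:ℝ)..((N + 1 : ℕ) : ℝ), f ⌊u⌋₊ / u ^ 2 =
      ∑ n ∈ Finset.Icc 1 N, f n * (1 / (n : ℝ) - 1 / ((n : ℝ) + 1)) := by
    intro N
    induction N with
    | zero => simp
    | succ N ih =>
      obtain ⟨h1, h2⟩ := step_piece f (n := N + 1) (by omega)
      refine ⟨ih.1.trans h1, ?_⟩
      rw [← intervalIntegral.integral_add_adjacent_intervals ih.1 h1, ih.2, h2,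
        Finset.sum_Icc_succ_top (by omega)]
  exact (h N).2

end Pool.Agent.Run7.h189.FD
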