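import Pool.Agent.Run7.h189.FD.A2

set_option autoImplicit false

/-! # Transfer of limits and the criterion for sequences -/

namespace Pool.Agent.Run7.h189.FD

open MeasureTheory Filter Topology Set
open H353.FB
open Pool.Agent.W120.WM (ZC NT)
open Pool.Agent.TH223.AP (WM WM_iff_ZC)

lemma sum_Icc_range (f : ℕ → ℝ) (N : ℕ) : ∑ n ∈ Finset.Icc 1 N, f n = ∑ i ∈ Finset.range N, f (i + 1) := by
  induction N with
  | zero => simp
  | succ N ih => rw [Finset.sum_Icc_succ_top (by omega), ih, Finset.sum_range_succ]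

lemma log_nat_top : Tendsto (fun N : ℕ => Real.log N) atTop atTop :=
  Real.tendsto_log_atTop.comp tendsto_natCast_atTop_atTop

lemma log_ratio : Tendsto (fun N : ℕ => Real.log ((N + 1 : ℕ) : ℝ) / Real.log N) atTop (𝓝 1) := by
  have h1 := Real.tendsto_log_nat_add_one_sub_log
  have h2 := (h1.div_atTop log_nat_top).const_add 1
  rw [add_zero] at h2
  refine h2.congr' ?_
  filter_upwards [eventually_gt_atTop 1] with N hN
  have h3 : 0 < Real.log N := Real.log_pos (by exact_mod_cast hN)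
  push_cast
  field_simp
  ring

lemma int_to_sum_yes {f : ℕ → ℝ} {k : ℕ} {l : ℝ}
    (h : Tendsto (fun x : ℝ => (∫ u in (1:ℝ)..x, f ⌊u⌋₊ / u ^ 2) / Real.log x ^ k) atTop (𝓝 l)) :
    Tendsto (fun N : ℕ => (∑ n ∈ Finset.Icc 1 N, f n * (1 / (n : ℝ) - 1 / ((n : ℝ) + 1))) / Real.log N ^ k)
      atTop (𝓝 l) := by
  have h1 : Tendsto (fun N : ℕ => ((N + 1 : ℕ) : ℝ)) atTop atTop :=
    tendsto_natCast_atTop_atTop.comp (tendsto_add_atTop_nat 1)
  have h2 := (h.comp h1).mul (log_ratio.pow k)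
  rw [one_pow, mul_one] at h2
  refine h2.congr' ?_
  filter_upwards [eventually_gt_atTop 1] with N hN
  have h3 : 0 < Real.log N := Real.log_pos (by exact_mod_cast hN)
  have h4 : 0 < Real.log ((N + 1 : ℕ) : ℝ) := Real.log_pos (by exact_mod_cast (by omega : 1 < N + 1))
  simp only [Function.comp]
  rw [step_sum, div_pow]
  field_simp

lemma int_to_sum_no {f : ℕ → ℝ} {k : ℕ}
    (h : Tendsto (fun x : ℝ => (∫ u in (1:ℝ)..x, f ⌊u⌋₊ / u ^ 2) / Real.log x ^ k) atTop atTop) :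
    Tendsto (fun N : ℕ => (∑ n ∈ Finset.Icc 1 N, f n * (1 / (n : ℝ) - 1 / ((n : ℝ) + 1))) / Real.log N ^ k)
      atTop atTop := by
  have h1 : Tendsto (fun N : ℕ => ((N + 1 : ℕ) : ℝ)) atTop atTop :=
    tendsto_natCast_atTop_atTop.comp (tendsto_add_atTop_nat 1)
  have h0 : Tendsto (fun N : ℕ => (Real.log ((N + 1 : ℕ) : ℝ) / Real.log N) ^ k) atTop (𝓝 1) := by
    have := log_ratio.pow k
    rwa [one_pow] at this
  have h2 := (h.comp h1).atTop_mul_pos one_pos h0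
  refine h2.congr' ?_
  filter_upwards [eventually_gt_atTop 1] with N hN
  have h3 : 0 < Real.log N := Real.log_pos (by exact_mod_cast hN)
  have h4 : 0 < Real.log ((N + 1 : ℕ) : ℝ) := Real.log_pos (by exact_mod_cast (by omega : 1 < N + 1))
  simp only [Function.comp]
  rw [step_sum, div_pow]
  field_simp

/-- a weight which converges -/
lemma weight_yes {a w : ℕ → ℝ} {k : ℕ} (hk : 1 ≤ k) {om l : ℝ} (ha : ∀ n, 1 ≤ n → 0 ≤ a n)
    (hw : Tendsto w atTop (𝓝 om)) (hl : 0 < l)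
    (hA : Tendsto (fun N : ℕ => (∑ n ∈ Finset.Icc 1 N, a n) / Real.log N ^ k) atTop (𝓝 l)) :
    Tendsto (fun N : ℕ => (∑ n ∈ Finset.Icc 1 N, w n * a n) / Real.log N ^ k) atTop (𝓝 (om * l)) := by
  have hlog : Tendsto (fun N : ℕ => Real.log N ^ k) atTop atTop :=
    (tendsto_pow_atTop (by omega)).comp log_nat_top
  have hpos : ∀ᶠ N : ℕ in atTop, 0 < Real.log N ^ k := hlog.eventually_gt_atTop 0
  have htop : Tendsto (fun N : ℕ => ∑ n ∈ Finset.Icc 1 N, a n) atTop atTop := by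
    have h1 := hA.pos_mul_atTop hl hlog
    refine h1.congr' ?_
    filter_upwards [hpos] with N hN
    field_simp
  have h1 : (fun i : ℕ => (w (i + 1) - om) * a (i + 1)) =o[atTop] fun i : ℕ => a (i + 1) := by
    have h2 : Tendsto (fun i : ℕ => w (i + 1) - om) atTop (𝓝 0) := by
      have := (hw.comp (tendsto_add_atTop_nat 1)).sub_const om
      rwa [sub_self] at this
    have h3 := ((Asymptotics.isLittleO_one_iff ℝ).2 h2).mul_isBigO
      (Asymptotics.isBigO_refl (fun i : ℕ => a (i + 1)) atTop)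
    simpa using h3
  have h2 := h1.sum_range (fun i => ha (i + 1) (by omega))
    (by simpa only [sum_Icc_range] using htop)
  have h3 : Tendsto (fun N : ℕ => (∑ n ∈ Finset.Icc 1 N, (w n - om) * a n) / ∑ n ∈ Finset.Icc 1 N, a n)
      atTop (𝓝 0) := by
    have := h2.tendsto_div_nhds_zero
    simpa only [sum_Icc_range] using this
  have h4 := (h3.mul hA).add (hA.const_mul om)
  rw [zero_mul, zero_add] at h4
  refine h4.congr' ?_
  filter_upwards [hpos, htop.eventually_gt_atTop 0] with N hN hN2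
  have h5 : ∑ n ∈ Finset.Icc 1 N, w n * a n = ∑ n ∈ Finset.Icc 1 N, (w n - om) * a n +
      om * ∑ n ∈ Finset.Icc 1 N, a n := by
    rw [Finset.mul_sum, ← Finset.sum_add_distrib]
    exact Finset.sum_congr rfl fun n _ => by ring
  rw [h5]
  field_simp

lemma weight_no {a w : ℕ → ℝ} {k : ℕ} {c : ℝ} (hc : 0 < c) (ha : ∀ n, 1 ≤ n → 0 ≤ a n)
    (hw : ∀ n, 1 ≤ n → c ≤ w n)
    (hA : Tendsto (fun N : ℕ => (∑ n ∈ Finset.Icc 1 N, a n) / Real.log N ^ k) atTop atTop) :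
    Tendsto (fun N : ℕ => (∑ n ∈ Finset.Icc 1 N, w n * a n) / Real.log N ^ k) atTop atTop := by
  refine tendsto_atTop_mono' atTop ?_ (hA.const_mul_atTop hc)
  filter_upwards [eventually_gt_atTop 1] with N hN
  have h3 : 0 < Real.log N := Real.log_pos (by exact_mod_cast hN)
  rw [← mul_div_assoc]
  apply div_le_div_of_nonneg_right _ (by positivity)
  rw [Finset.mul_sum]
  refine Finset.sum_le_sum fun n hn => ?_
  rw [Finset.mem_Icc] at hn
  exact mul_le_mul_of_nonneg_right (hw n hn.1) (ha n hn.1)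

/-- the criterion for sequences -/
def SCrit (a : ℕ → ℝ) (k : ℕ) (W : ℂ → ℝ) (c : ℝ) : Prop :=
  (WM ↔ ∃ C : ℝ, ∀ N : ℕ, 2 ≤ N → ∑ n ∈ Finset.Icc 1 N, a n ≤ C * Real.log N ^ k) ∧
  (WM ↔ ∃ C : ℝ, ∃ᶠ N : ℕ in atTop, ∑ n ∈ Finset.Icc 1 N, a n ≤ C * Real.log N ^ k) ∧
  (WM → Summable (fun ρ : NT => W ρ / ‖(ρ : ℂ) * deriv riemannZeta ρ‖ ^ 2) ∧
    0 < ∑' ρ : NT, W ρ / ‖(ρ : ℂ) * deriv riemannZeta ρ‖ ^ 2 ∧
    Tendsto (fun N : ℕ => (∑ n ∈ Finset.Icc 1 N, a n) / Real.log N ^ k) atTop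
      (𝓝 (c * ∑' ρ : NT, W ρ / ‖(ρ : ℂ) * deriv riemannZeta ρ‖ ^ 2))) ∧
  (¬ WM → Tendsto (fun N : ℕ => (∑ n ∈ Finset.Icc 1 N, a n) / Real.log N ^ k) atTop atTop)

theorem SCrit.intro {a : ℕ → ℝ} {k : ℕ} {W : ℂ → ℝ} {c : ℝ}
    (h1 : WM → Summable (fun ρ : NT => W ρ / ‖(ρ : ℂ) * deriv riemannZeta ρ‖ ^ 2) ∧
      0 < ∑' ρ : NT, W ρ / ‖(ρ : ℂ) * deriv riemannZeta ρ‖ ^ 2 ∧
      Tendsto (fun N : ℕ => (∑ n ∈ Finset.Icc 1 N, a n) / Real.log N ^ k) atTop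
      (𝓝 (c * ∑' ρ : NT, W ρ / ‖(ρ : ℂ) * deriv riemannZeta ρ‖ ^ 2)))
    (h2 : ¬ WM → Tendsto (fun N : ℕ => (∑ n ∈ Finset.Icc 1 N, a n) / Real.log N ^ k) atTop atTop) :
    SCrit a k W c := by
  have h3 : WM → ∃ C : ℝ, ∀ N : ℕ, 2 ≤ N → ∑ n ∈ Finset.Icc 1 N, a n ≤ C * Real.log N ^ k := by
    intro hW
    obtain ⟨B, hB⟩ := (h1 hW).2.2.bddAbove_range
    refine ⟨B, fun N hN => ?_⟩
    have h4 := hB ⟨N, rfl⟩
    have h5 : 0 < Real.log N := Real.log_pos (by exact_mod_cast (by omega : 1 < N))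
    simp only at h4
    rwa [div_le_iff₀ (by positivity)] at h4
  have h4 : (∃ C : ℝ, ∃ᶠ N : ℕ in atTop, ∑ n ∈ Finset.Icc 1 N, a n ≤ C * Real.log N ^ k) → WM := by
    rintro ⟨C, hC⟩
    by_contra hW
    obtain ⟨N, h5, h6, h7⟩ := (hC.and_eventually (((h2 hW).eventually_gt_atTop C).and
      (eventually_gt_atTop 1))).exists
    have h8 : 0 < Real.log N := Real.log_pos (by exact_mod_cast h7)
    rw [lt_div_iff₀ (by positivity)] at h6
    linarith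
  have h5 : (∃ C : ℝ, ∀ N : ℕ, 2 ≤ N → ∑ n ∈ Finset.Icc 1 N, a n ≤ C * Real.log N ^ k) →
      ∃ C : ℝ, ∃ᶠ N : ℕ in atTop, ∑ n ∈ Finset.Icc 1 N, a n ≤ C * Real.log N ^ k := by
    rintro ⟨C, hC⟩
    exact ⟨C, (eventually_atTop.2 ⟨2, hC⟩).frequently⟩
  exact ⟨⟨h3, fun h => h4 (h5 h)⟩, ⟨fun h => h5 (h3 h), h4⟩, h1, h2⟩

end Pool.Agent.Run7.h189.FD
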