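import Pool.Agent.Run7.h189.FD.A3

set_option autoImplicit false

/-! # The Franel sum and the weak Mertens hypothesis -/

namespace Pool.Agent.Run7.h189.FD

open MeasureTheory Filter Topology Set
open H353.FB
open Pool.Agent.W120.WM (ZC NT)
open Pool.Agent.TH223.AP (WM WM_iff_ZC)
open Pool.Agent.R305.FM (DD mu3 FI SH)

/-- `n (n + 1) / |F_n|` -/
noncomputable def wF (n : ℕ) : ℝ := (n : ℝ) * ((n : ℝ) + 1) / ((farey n).card : ℝ)

lemma wF_ge {n : ℕ} (hn : 1 ≤ n) : 1 ≤ wF n := by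
  have hc : (0:ℝ) < (farey n).card := by exact_mod_cast t1_card_pos hn
  unfold wF
  rw [one_le_div hc]
  have h1 := card_le n
  have h2 : (0:ℝ) ≤ n := Nat.cast_nonneg n
  nlinarith

lemma wF_lim : Tendsto wF atTop (𝓝 (Real.pi ^ 2 / 3)) := by
  have h1 := card_lim.inv₀ (by positivity)
  have h2 : Tendsto (fun n : ℕ => 1 + 1 / (n : ℝ)) atTop (𝓝 1) := by
    have := (tendsto_one_div_atTop_nhds_zero_nat (𝕜 := ℝ)).const_add 1
    simpa using this
  have h3 := h1.mul h2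
  rw [mul_one, inv_div] at h3
  refine h3.congr' ?_
  filter_upwards [eventually_gt_atTop 0] with n hn
  have hn0 : (0:ℝ) < n := by exact_mod_cast hn
  unfold wF
  have hc : (0:ℝ) < (farey n).card := by exact_mod_cast t1_card_pos hn
  field_simp

lemma franel_nonneg (n : ℕ) : 0 ≤ franel n := Finset.sum_nonneg fun _ _ => sq_nonneg _

lemma DD_ge {n : ℕ} (hn : 1 ≤ n) : 0 ≤ DD n - 1 / 3 := by
  rw [← franel_eq hn]
  exact mul_nonneg (Nat.cast_nonneg _) (franel_nonneg n)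

lemma ff_pos {n : ℕ} (hn : 1 ≤ n) : 0 ≤ 1 / (n : ℝ) - 1 / ((n : ℝ) + 1) := by
  have hn0 : (0:ℝ) < n := by exact_mod_cast hn
  rw [sub_nonneg]
  apply one_div_le_one_div_of_le hn0
  linarith

lemma franel_w {n : ℕ} (hn : 1 ≤ n) :
    franel n = wF n * ((DD n - 1 / 3) * (1 / (n : ℝ) - 1 / ((n : ℝ) + 1))) := by
  have hc : (0:ℝ) < (farey n).card := by exact_mod_cast t1_card_pos hn
  have hn0 : (0:ℝ) < n := by exact_mod_cast hn
  rw [← franel_eq hn]
  unfold wF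
  field_simp
  ring

lemma sum_split (N : ℕ) : ∑ n ∈ Finset.Icc 1 N, (DD n - 1 / 3) * (1 / (n : ℝ) - 1 / ((n : ℝ) + 1)) =
    ∑ n ∈ Finset.Icc 1 N, DD n * (1 / (n : ℝ) - 1 / ((n : ℝ) + 1)) - 1 / 3 * (1 - 1 / ((N : ℝ) + 1)) := by
  induction N with
  | zero => simp
  | succ N ih =>
    rw [Finset.sum_Icc_succ_top (by omega), Finset.sum_Icc_succ_top (by omega), ih]
    push_cast
    ring

lemma rest_lim (k : ℕ) (hk : 1 ≤ k) :
    Tendsto (fun N : ℕ => 1 / 3 * (1 - 1 / ((N : ℝ) + 1)) / Real.log N ^ k) atTop (𝓝 0) := by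
  apply Tendsto.div_atTop (a := 1 / 3 * (1 - 0))
  · exact (tendsto_one_div_add_atTop_nhds_zero_nat.const_sub 1).const_mul _
  · exact (tendsto_pow_atTop (by omega)).comp log_nat_top

theorem franel_yes (hW : WM) : Tendsto (fun N : ℕ => (∑ n ∈ Finset.Icc 1 N, franel n) / Real.log N ^ 2) atTop
    (𝓝 (Real.pi ^ 2 / 3 * (SH * mu3 / 24))) := by
  have hZ := WM_iff_ZC.1 hW
  have h1 := Pool.Agent.R305.FM.lim_yes hZ
  have h2 := int_to_sum_yes (f := DD) (k := 2) h1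
  have h3 := h2.sub (rest_lim 2 (by norm_num))
  rw [sub_zero] at h3
  have hpos : 0 < SH * mu3 / 24 := by
    have h5 := Pool.Agent.R305.FM.SH_pos hZ
    have h6 := Pool.Agent.R305.FM.mu3_pos
    positivity
  have h4 := weight_yes (a := fun n => (DD n - 1 / 3) * (1 / (n : ℝ) - 1 / ((n : ℝ) + 1))) (w := wF) (k := 2)
    (by norm_num) (fun n hn => mul_nonneg (DD_ge hn) (ff_pos hn)) wF_lim hpos (by
      refine h3.congr fun N => ?_
      rw [sum_split, sub_div])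
  refine h4.congr fun N => ?_
  congr 1
  refine Finset.sum_congr rfl fun n hn => ?_
  rw [franel_w (Finset.mem_Icc.1 hn).1]

theorem franel_no (hW : ¬ WM) :
    Tendsto (fun N : ℕ => (∑ n ∈ Finset.Icc 1 N, franel n) / Real.log N ^ 2) atTop atTop := by
  have h1 := Pool.Agent.R305.FM.lim_no fun hZ => hW (WM_iff_ZC.2 hZ)
  have h2 := int_to_sum_no (f := DD) (k := 2) h1
  have h3 := h2.atTop_add (rest_lim 2 (by norm_num)).neg
  have h4 := weight_no (a := fun n => (DD n - 1 / 3) * (1 / (n : ℝ) - 1 / ((n : ℝ) + 1))) (w := wF) (k := 2)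
    one_pos (fun n hn => mul_nonneg (DD_ge hn) (ff_pos hn)) (fun n hn => wF_ge hn) (by
      refine h3.congr fun N => ?_
      rw [sum_split, sub_div]
      ring)
  refine h4.congr fun N => ?_
  congr 1
  refine Finset.sum_congr rfl fun n hn => ?_
  rw [franel_w (Finset.mem_Icc.1 hn).1]

theorem franel_crit : SCrit franel 2 (fun ρ => ‖riemannZeta (1 + ρ)‖ ^ 2)
    (Real.pi ^ 2 / (72 * ∑' n : ℕ, 1 / (n : ℝ) ^ 3)) := by
  refine SCrit.intro (fun hW => ?_) franel_no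
  have hZ := WM_iff_ZC.1 hW
  refine ⟨Pool.Agent.R305.FM.SH_summable hZ, Pool.Agent.R305.FM.SH_pos hZ, ?_⟩
  have h1 := franel_yes hW
  have h2 := Pool.Agent.R305.FM.mu3_mul
  have h3 : Real.pi ^ 2 / 3 * (SH * mu3 / 24) = Real.pi ^ 2 / (72 * ∑' n : ℕ, 1 / (n : ℝ) ^ 3) * SH := by
    have hz : 0 < ∑' n : ℕ, 1 / (n : ℝ) ^ 3 :=
      Pool.Agent.R305.FM.mu3_summable.tsum_pos (fun n => by positivity) 1 (by norm_num)
    have h4 : mu3 = 1 / ∑' n : ℕ, 1 / (n : ℝ) ^ 3 := by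
      rw [eq_div_iff hz.ne']
      exact h2
    rw [h4]
    field_simp
    ring
  rw [h3] at h1
  exact h1

end Pool.Agent.Run7.h189.FD
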