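import Pool.Agent.Run7.h189.FD.A4

set_option autoImplicit false

/-! # Energies of the Farey fractions: exact formulas -/

namespace Pool.Agent.Run7.h189.FD

open MeasureTheory Filter Topology Set
open H353.FB
open Pool.Agent.W120.WM (ZC NT)
open Pool.Agent.TH223.AP (WM WM_iff_ZC)
open Pool.Agent.R754.WX (Sh Sh_eq IE wgt KC LS)

/-! ## exponential sums -/

lemma exp_sum {k d : ℕ} (hd : 1 ≤ d) :
    ∑ h ∈ Finset.Icc 1 d, Complex.exp (2 * Real.pi * Complex.I * ((k : ℂ) * ((h : ℂ) / (d : ℂ)))) =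
      if d ∣ k then (d : ℂ) else 0 := by
  have hd0 : (d : ℂ) ≠ 0 := by exact_mod_cast (by omega : d ≠ 0)
  set z : ℂ := Complex.exp (2 * Real.pi * Complex.I * ((k : ℂ) / (d : ℂ))) with hz
  have h1 : ∀ h ∈ Finset.Icc 1 d, Complex.exp (2 * Real.pi * Complex.I * ((k : ℂ) * ((h : ℂ) / (d : ℂ)))) =
      z ^ h := by
    intro h _
    rw [hz, ← Complex.exp_nat_mul]
    congr 1
    field_simp
  rw [Finset.sum_congr rfl h1]
  split_ifs with hdk
  · obtain ⟨m, rfl⟩ := hdk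
    have hz1 : z = 1 := by
      rw [hz, Complex.exp_eq_one_iff]
      refine ⟨m, ?_⟩
      push_cast
      field_simp
    rw [hz1]
    simp
  · have hz1 : z ≠ 1 := by
      intro h
      rw [hz, Complex.exp_eq_one_iff] at h
      obtain ⟨m, hm⟩ := h
      apply hdk
      have h2 : (k : ℂ) = m * d := by
        have h3 : (2 * Real.pi * Complex.I : ℂ) ≠ 0 := Complex.two_pi_I_ne_zero
        have h4 : (k : ℂ) / (d : ℂ) = m := by
          apply mul_left_cancel₀ h3
          rw [hm]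
          ring
        rw [← h4]
        field_simp
      have h5 : (k : ℤ) = m * d := by exact_mod_cast h2
      have h6 : (d : ℤ) ∣ (k : ℤ) := ⟨m, by rw [h5]; ring⟩
      exact Int.natCast_dvd_natCast.1 h6
    have hzd : z ^ d = 1 := by
      rw [hz, ← Complex.exp_nat_mul, Complex.exp_eq_one_iff]
      refine ⟨k, ?_⟩
      push_cast
      field_simp
    have h2 : ∑ h ∈ Finset.Icc 1 d, z ^ h = z * ∑ i ∈ Finset.range d, z ^ i := by
      have h3 : ∀ d : ℕ, ∑ h ∈ Finset.Icc 1 d, z ^ h = z * ∑ i ∈ Finset.range d, z ^ i := by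
        intro d
        induction d with
        | zero => simp
        | succ d ih =>
          rw [Finset.sum_Icc_succ_top (by omega), Finset.sum_range_succ, ih]
          ring
      exact h3 d
    rw [h2, geom_sum_eq hz1, hzd, sub_self, zero_div, mul_zero]

/-- `∑_{d ∣ k, d ≤ n} d M(n/d)` -/
noncomputable def TT (k n : ℕ) : ℝ := ∑ d ∈ Finset.Icc 1 n, (if d ∣ k then (d : ℝ) else 0) * Mx ((n : ℝ) / d)

lemma weyl_cos (k n : ℕ) : ∑ r ∈ farey n, Real.cos (2 * Real.pi * k * r) = TT k n := by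
  rw [sum_farey_mertens n (fun r => Real.cos (2 * Real.pi * k * r))]
  unfold TT
  refine Finset.sum_congr rfl fun d hd => ?_
  rw [Finset.mem_Icc] at hd
  rw [mul_comm]
  congr 1
  have h1 := congrArg Complex.re (exp_sum (k := k) hd.1)
  rw [Complex.re_sum] at h1
  have h2 : (if d ∣ k then (d : ℂ) else 0).re = if d ∣ k then (d : ℝ) else 0 := by split_ifs <;> simp
  rw [h2] at h1
  rw [← h1]
  refine Finset.sum_congr rfl fun h _ => ?_
  have h3 : (2 * Real.pi * Complex.I * ((k : ℂ) * ((h : ℂ) / (d : ℂ))) : ℂ) =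
      ((2 * Real.pi * k * ((h : ℝ) / (d : ℝ)) : ℝ) : ℂ) * Complex.I := by
    push_cast
    ring
  rw [h3, Complex.exp_ofReal_mul_I_re]
  push_cast
  rfl

lemma weyl_sin (k n : ℕ) : ∑ r ∈ farey n, Real.sin (2 * Real.pi * k * r) = 0 := by
  rw [sum_farey_mertens n (fun r => Real.sin (2 * Real.pi * k * r))]
  refine Finset.sum_eq_zero fun d hd => ?_
  rw [Finset.mem_Icc] at hd
  have h1 := congrArg Complex.im (exp_sum (k := k) hd.1)
  rw [Complex.im_sum] at h1
  have h2 : (if d ∣ k then (d : ℂ) else 0).im = 0 := by split_ifs <;> simp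
  rw [h2] at h1
  have h4 : ∑ h ∈ Finset.Icc 1 d, Real.sin (2 * Real.pi * k * (((h : ℚ) / (d : ℚ) : ℚ) : ℝ)) = 0 := by
    rw [← h1]
    refine Finset.sum_congr rfl fun h _ => ?_
    have h3 : (2 * Real.pi * Complex.I * ((k : ℂ) * ((h : ℂ) / (d : ℂ))) : ℂ) =
        ((2 * Real.pi * k * ((h : ℝ) / (d : ℝ)) : ℝ) : ℂ) * Complex.I := by
      push_cast
      ring
    rw [h3, Complex.exp_ofReal_mul_I_im]
    push_cast
    rfl
  rw [h4, mul_zero]

lemma cos_pairs (k n : ℕ) :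
    ∑ r ∈ farey n, ∑ q ∈ farey n, Real.cos (2 * Real.pi * k * ((r : ℝ) - (q : ℝ))) = TT k n ^ 2 := by
  have h1 : ∀ r ∈ farey n, ∀ q ∈ farey n, Real.cos (2 * Real.pi * k * ((r : ℝ) - (q : ℝ))) =
      Real.cos (2 * Real.pi * k * r) * Real.cos (2 * Real.pi * k * q) +
      Real.sin (2 * Real.pi * k * r) * Real.sin (2 * Real.pi * k * q) := by
    intro r _ q _
    rw [mul_sub, Real.cos_sub]
  rw [Finset.sum_congr rfl fun r hr => Finset.sum_congr rfl (h1 r hr)]
  simp only [Finset.sum_add_distrib]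
  rw [← Finset.sum_mul_sum, ← Finset.sum_mul_sum, weyl_cos, weyl_sin]
  ring

/-! ## kernels and energies -/

/-- the kernel with the Fourier coefficients `c` -/
noncomputable def kernel (c : ℕ → ℝ) (x : ℝ) : ℝ := ∑' k : ℕ, c k * Real.cos (2 * Real.pi * k * x)

lemma energy_eq {c : ℕ → ℝ} (hc : Summable c) (hc0 : ∀ k, 0 ≤ c k) (n : ℕ) :
    ∑ r ∈ farey n, ∑ q ∈ farey n, kernel c ((r : ℝ) - (q : ℝ)) = ∑' k : ℕ, c k * TT k n ^ 2 := by
  have hs : ∀ x : ℝ, Summable fun k : ℕ => c k * Real.cos (2 * Real.pi * k * x) := by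
    intro x
    refine Summable.of_norm_bounded hc fun k => ?_
    rw [norm_mul, Real.norm_of_nonneg (hc0 k), Real.norm_eq_abs]
    exact mul_le_of_le_one_right (hc0 k) (Real.abs_cos_le_one _)
  unfold kernel
  have h1 : ∀ r ∈ farey n, ∑ q ∈ farey n, ∑' k : ℕ, c k * Real.cos (2 * Real.pi * k * ((r : ℝ) - (q : ℝ))) =
      ∑' k : ℕ, ∑ q ∈ farey n, c k * Real.cos (2 * Real.pi * k * ((r : ℝ) - (q : ℝ))) := by
    intro r _
    rw [Summable.tsum_finsetSum fun q _ => hs _]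
  rw [Finset.sum_congr rfl h1, ← Summable.tsum_finsetSum]
  · refine tsum_congr fun k => ?_
    rw [← cos_pairs, Finset.mul_sum]
    refine Finset.sum_congr rfl fun r _ => ?_
    rw [Finset.mul_sum]
  · intro r _
    exact summable_sum fun q _ => hs _

lemma TT_summable {c : ℕ → ℝ} (hc : Summable c) (hc0 : ∀ k, 0 ≤ c k) (n : ℕ) :
    Summable fun k : ℕ => c k * TT k n ^ 2 := by
  refine Summable.of_nonneg_of_le (fun k => mul_nonneg (hc0 k) (sq_nonneg _)) (fun k => ?_)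
    (hc.mul_right (((farey n).card : ℝ) ^ 2))
  have h1 : |TT k n| ≤ (farey n).card := by
    rw [← weyl_cos]
    refine (Finset.abs_sum_le_sum_abs _ _).trans ?_
    calc ∑ r ∈ farey n, |Real.cos (2 * Real.pi * k * r)| ≤ ∑ r ∈ farey n, (1:ℝ) :=
          Finset.sum_le_sum fun r _ => Real.abs_cos_le_one _
      _ = _ := by simp
  have h2 : TT k n ^ 2 ≤ ((farey n).card : ℝ) ^ 2 := by
    rw [← sq_abs]
    gcongr
  exact mul_le_mul_of_nonneg_left h2 (hc0 k)

/-! ## the arithmetic functions -/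

/-- `d` if `d` divides `k` -/
noncomputable def hk (k : ℕ) : ArithmeticFunction ℂ := ⟨fun d => if d ∣ k then (d : ℂ) else 0, by simp⟩

lemma hk_apply (k d : ℕ) : hk k d = if d ∣ k then (d : ℂ) else 0 := rfl

lemma Sh_hk (k : ℕ) (u : ℝ) : Sh (hk k) u = ((TT k ⌊u⌋₊ : ℝ) : ℂ) := by
  rw [Sh_eq]
  unfold TT
  push_cast
  refine Finset.sum_congr rfl fun d _ => ?_
  rw [hk_apply, Pool.Agent.R754.WX.Mx_fl]
  split_ifs <;> simp

lemma IE_hk (k N : ℕ) : IE (Sh (hk k)) ((N + 1 : ℕ) : ℝ) =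
    ∑ n ∈ Finset.Icc 1 N, TT k n ^ 2 * (1 / (n : ℝ) - 1 / ((n : ℝ) + 1)) := by
  rw [← step_sum]
  unfold IE
  apply intervalIntegral.integral_congr
  intro u _
  simp only
  rw [Sh_hk, Complex.norm_real, Real.norm_eq_abs, sq_abs]

lemma hk_support {k : ℕ} (hk1 : 1 ≤ k) {d : ℕ} (h : d ∉ k.divisors) : hk k d = 0 := by
  rw [hk_apply, if_neg]
  intro h2
  exact h (Nat.mem_divisors.2 ⟨h2, by omega⟩)

lemma wgt_hk_summable {k : ℕ} (hk1 : 1 ≤ k) : Summable fun m => ‖wgt (hk k) m‖ := by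
  apply summable_of_ne_finset_zero (s := k.divisors)
  intro d hd
  unfold wgt
  rw [hk_support hk1 hd]
  simp

lemma KC_hk {k : ℕ} (hk1 : 1 ≤ k) : KC (wgt (hk k)) = ∑ d ∈ k.divisors, √(d : ℝ) := by
  unfold KC
  rw [tsum_eq_sum (s := k.divisors)]
  · refine Finset.sum_congr rfl fun d hd => ?_
    have hd0 : (0:ℝ) < d := by exact_mod_cast Nat.pos_of_mem_divisors hd
    rw [Pool.Agent.R754.WX.wgt_norm, hk_apply, if_pos (Nat.dvd_of_mem_divisors hd), Complex.norm_natCast]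
    have := Real.mul_self_sqrt hd0.le
    have h3 : 0 < √(d : ℝ) := Real.sqrt_pos.2 hd0
    field_simp
    nlinarith
  · intro d hd
    unfold wgt
    rw [hk_support hk1 hd]
    simp

/-- `∑_{d ∣ k} d^{1-ρ}` -/
lemma LS_hk {k : ℕ} (hk1 : 1 ≤ k) (ρ : ℂ) : LS (hk k) ρ = ∑ d ∈ k.divisors, (d : ℂ) ^ (1 - ρ) := by
  rw [Pool.Agent.R754.WX.LS_eq]
  unfold LSeries
  rw [tsum_eq_sum (s := k.divisors)]
  · refine Finset.sum_congr rfl fun d hd => ?_
    have hd0 : d ≠ 0 := (Nat.pos_of_mem_divisors hd).ne'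
    have hdC : (d : ℂ) ≠ 0 := by exact_mod_cast hd0
    rw [LSeries.term_of_ne_zero hd0, hk_apply, if_pos (Nat.dvd_of_mem_divisors hd), Complex.cpow_sub _ _ hdC,
      Complex.cpow_one]
  · intro d hd
    rcases Nat.eq_zero_or_pos d with rfl | hd0
    · simp
    · rw [LSeries.term_of_ne_zero hd0.ne', hk_support hk1 hd, zero_div]

end Pool.Agent.Run7.h189.FD
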