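import Pool.Agent.Run7.h189.FD.B1

set_option autoImplicit false

/-! # Energies of the Farey fractions: the criterion -/

namespace Pool.Agent.Run7.h189.FD

open MeasureTheory Filter Topology Set
open H353.FB
open Pool.Agent.W120.WM (ZC NT)
open Pool.Agent.TH223.AP (WM WM_iff_ZC)
open Pool.Agent.R754.WX (Sh Sh_eq IE wgt KC LS SH)

/-- `∑_{d ∣ k} √d` -/
noncomputable def sg (k : ℕ) : ℝ := ∑ d ∈ k.divisors, √(d : ℝ)

lemma sg_nonneg (k : ℕ) : 0 ≤ sg k := Finset.sum_nonneg fun _ _ => Real.sqrt_nonneg _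

lemma sg_ge {k : ℕ} (hk1 : 1 ≤ k) : 1 ≤ sg k := by
  have h1 : (1 : ℕ) ∈ k.divisors := Nat.one_mem_divisors.2 (by omega)
  have h2 := Finset.single_le_sum (f := fun d : ℕ => √(d : ℝ)) (fun d _ => Real.sqrt_nonneg _) h1
  have h3 : √((1 : ℕ) : ℝ) = 1 := by simp
  rw [← h3]
  exact h2

structure Good (c : ℕ → ℝ) : Prop where
  zero : c 0 = 0
  one : 0 < c 1
  nonneg : ∀ k, 0 ≤ c k
  sum : Summable fun k : ℕ => c k * sg k ^ 2

lemma Good.summable {c : ℕ → ℝ} (h : Good c) : Summable c := by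
  refine Summable.of_nonneg_of_le h.nonneg (fun k => ?_) h.sum
  rcases Nat.eq_zero_or_pos k with rfl | hk1
  · rw [h.zero]; simp
  · have h1 := sg_ge hk1
    have h2 : 1 ≤ sg k ^ 2 := one_le_pow₀ h1
    exact le_mul_of_one_le_right (h.nonneg k) h2

/-- `∑_{r, q} f(r - q)` -/
noncomputable def EN (c : ℕ → ℝ) (n : ℕ) : ℝ := ∑ r ∈ farey n, ∑ q ∈ farey n, kernel c ((r : ℝ) - (q : ℝ))

lemma EN_eq {c : ℕ → ℝ} (h : Good c) (n : ℕ) : EN c n = ∑' k : ℕ, c k * TT k n ^ 2 :=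
  energy_eq h.summable h.nonneg n

lemma EN_nonneg {c : ℕ → ℝ} (h : Good c) (n : ℕ) : 0 ≤ EN c n := by
  rw [EN_eq h]
  exact tsum_nonneg fun k => mul_nonneg (h.nonneg k) (sq_nonneg _)

lemma EN_sum {c : ℕ → ℝ} (h : Good c) (N : ℕ) :
    ∑ n ∈ Finset.Icc 1 N, EN c n * (1 / (n : ℝ) - 1 / ((n : ℝ) + 1)) =
      ∑' k : ℕ, c k * IE (Sh (hk k)) ((N + 1 : ℕ) : ℝ) := by
  have h1 : ∀ n ∈ Finset.Icc 1 N, EN c n * (1 / (n : ℝ) - 1 / ((n : ℝ) + 1)) =
      ∑' k : ℕ, c k * TT k n ^ 2 * (1 / (n : ℝ) - 1 / ((n : ℝ) + 1)) := by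
    intro n _
    rw [EN_eq h, tsum_mul_right]
  rw [Finset.sum_congr rfl h1, ← Summable.tsum_finsetSum]
  · refine tsum_congr fun k => ?_
    rw [IE_hk, Finset.mul_sum]
    refine Finset.sum_congr rfl fun n _ => by ring
  · intro n _
    exact (TT_summable h.summable h.nonneg n).mul_right _

lemma IE_int (k : ℕ) (x : ℝ) : IE (Sh (hk k)) x = ∫ u in (1:ℝ)..x, (fun n : ℕ => TT k n ^ 2) ⌊u⌋₊ / u ^ 2 := by
  unfold IE
  apply intervalIntegral.integral_congr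
  intro u _
  simp only
  rw [Sh_hk, Complex.norm_real, Real.norm_eq_abs, sq_abs]

lemma IE_nonneg (E : ℝ → ℂ) {x : ℝ} (hx : 1 ≤ x) : 0 ≤ IE E x :=
  intervalIntegral.integral_nonneg hx fun u _ => by positivity

lemma hk_one : hk 1 = 1 := by
  ext d
  rw [hk_apply, ArithmeticFunction.one_apply]
  by_cases h : d = 1
  · subst h; simp
  · rw [if_neg (by rwa [Nat.dvd_one]), if_neg h]

/-- uniform bound -/
lemma unif (hW : WM) : ∃ C : ℝ, 0 ≤ C ∧ ∀ k : ℕ, 1 ≤ k → ∀ x : ℝ, 2 ≤ x →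
    IE (Sh (hk k)) x ≤ C * sg k ^ 2 * Real.log x := by
  obtain ⟨C, hC⟩ := hW
  have hC' : ∀ x : ℝ, 2 ≤ x → Pool.Agent.R754.WX.IF (Real.log x) ≤ C * Real.log x := by
    intro x hx
    rw [Pool.Agent.R754.WX.IF_eq (Real.log_nonneg (by linarith)), Real.exp_log (by linarith)]
    exact hC x hx
  have hC0 : 0 ≤ C := by
    have h1 := hC' 2 le_rfl
    have h2 : 0 ≤ Pool.Agent.R754.WX.IF (Real.log 2) :=
      intervalIntegral.integral_nonneg (Real.log_nonneg (by norm_num)) fun v _ => by positivity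
    have h3 : 0 < Real.log 2 := Real.log_pos (by norm_num)
    by_contra h
    push Not at h
    nlinarith
  refine ⟨C, hC0, fun k hk1 x hx => ?_⟩
  have hx1 : 1 ≤ x := by linarith
  rw [Pool.Agent.R754.WX.IE_eq _ hx1]
  have h1 := Pool.Agent.R754.WX.g_le_f (wgt_hk_summable hk1) (Real.log_nonneg hx1)
  rw [KC_hk hk1] at h1
  refine h1.trans ?_
  have h2 := hC' x hx
  calc (∑ d ∈ k.divisors, √(d : ℝ)) ^ 2 * Pool.Agent.R754.WX.IF (Real.log x) ≤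
      (∑ d ∈ k.divisors, √(d : ℝ)) ^ 2 * (C * Real.log x) := by gcongr
    _ = _ := by unfold sg; ring

/-- the weight of a zero -/
noncomputable def Wc (c : ℕ → ℝ) (ρ : ℂ) : ℝ := ∑' k : ℕ, c k * ‖∑ d ∈ k.divisors, (d : ℂ) ^ (1 - ρ)‖ ^ 2

lemma inv_summable (hZ : ZC) : Summable fun ρ : NT => 1 / ‖(ρ : ℂ) * deriv riemannZeta ρ‖ ^ 2 := by
  have h := Pool.Agent.R754.WX.SH_summable (wgt_hk_summable (k := 1) le_rfl) hZ
  refine h.congr fun ρ => ?_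
  rw [LS_hk le_rfl]
  simp

lemma prod_summable {c : ℕ → ℝ} (h : Good c) (hZ : ZC) :
    Summable fun p : ℕ × NT => c p.1 * ‖∑ d ∈ p.1.divisors, (d : ℂ) ^ (1 - (p.2 : ℂ))‖ ^ 2 /
      ‖(p.2 : ℂ) * deriv riemannZeta p.2‖ ^ 2 := by
  have h1 := h.sum.mul_of_nonneg (inv_summable hZ) (fun k => mul_nonneg (h.nonneg k) (sq_nonneg _))
    (fun ρ => by positivity)
  refine Summable.of_nonneg_of_le (fun p => div_nonneg (mul_nonneg (h.nonneg _) (sq_nonneg _)) (sq_nonneg _))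
    (fun p => ?_) h1
  rw [mul_one_div]
  apply div_le_div_of_nonneg_right _ (sq_nonneg _)
  apply mul_le_mul_of_nonneg_left _ (h.nonneg _)
  have h2 : ‖∑ d ∈ p.1.divisors, (d : ℂ) ^ (1 - (p.2 : ℂ))‖ ≤ sg p.1 := by
    refine (norm_sum_le _ _).trans (Finset.sum_le_sum fun d hd => ?_)
    have hd0 : 0 < d := Nat.pos_of_mem_divisors hd
    rw [Complex.norm_natCast_cpow_of_pos hd0, Complex.sub_re, Complex.one_re, (hZ.1 p.2 p.2.2).1,
      Real.sqrt_eq_rpow]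
    norm_num
  gcongr

lemma swap {c : ℕ → ℝ} (h : Good c) (hZ : ZC) :
    Summable (fun ρ : NT => Wc c ρ / ‖(ρ : ℂ) * deriv riemannZeta ρ‖ ^ 2) ∧
    ∑' k : ℕ, c k * SH (hk k) = ∑' ρ : NT, Wc c ρ / ‖(ρ : ℂ) * deriv riemannZeta ρ‖ ^ 2 := by
  have hp := prod_summable h hZ
  have e1 : ∀ ρ : NT, ∑' k : ℕ, c k * ‖∑ d ∈ k.divisors, (d : ℂ) ^ (1 - (ρ : ℂ))‖ ^ 2 /
      ‖(ρ : ℂ) * deriv riemannZeta ρ‖ ^ 2 = Wc c ρ / ‖(ρ : ℂ) * deriv riemannZeta ρ‖ ^ 2 := by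
    intro ρ
    rw [tsum_div_const]
    rfl
  have e2 : ∀ k : ℕ, ∑' ρ : NT, c k * ‖∑ d ∈ k.divisors, (d : ℂ) ^ (1 - (ρ : ℂ))‖ ^ 2 /
      ‖(ρ : ℂ) * deriv riemannZeta ρ‖ ^ 2 = c k * SH (hk k) := by
    intro k
    rcases Nat.eq_zero_or_pos k with rfl | hk1
    · rw [h.zero]; simp
    · unfold Pool.Agent.R754.WX.SH
      rw [← tsum_mul_left]
      refine tsum_congr fun ρ => ?_
      rw [LS_hk hk1, mul_div_assoc]
  constructor
  · have h1 := ((Equiv.prodComm NT ℕ).summable_iff.2 hp).prod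
    refine h1.congr fun ρ => ?_
    rw [← e1 ρ]
    rfl
  · have h2 := Summable.tsum_comm (f := fun (k : ℕ) (ρ : NT) =>
      c k * ‖∑ d ∈ k.divisors, (d : ℂ) ^ (1 - (ρ : ℂ))‖ ^ 2 / ‖(ρ : ℂ) * deriv riemannZeta ρ‖ ^ 2) hp
    rw [← tsum_congr e1, h2]
    exact (tsum_congr e2).symm

lemma Wc_ge {c : ℕ → ℝ} (h : Good c) (hZ : ZC) (ρ : NT) : c 1 ≤ Wc c ρ := by
  have hs : Summable fun k : ℕ => c k * ‖∑ d ∈ k.divisors, (d : ℂ) ^ (1 - (ρ : ℂ))‖ ^ 2 := by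
    refine Summable.of_nonneg_of_le (fun k => mul_nonneg (h.nonneg _) (sq_nonneg _)) (fun k => ?_) h.sum
    apply mul_le_mul_of_nonneg_left _ (h.nonneg _)
    have h2 : ‖∑ d ∈ k.divisors, (d : ℂ) ^ (1 - (ρ : ℂ))‖ ≤ sg k := by
      refine (norm_sum_le _ _).trans (Finset.sum_le_sum fun d hd => ?_)
      have hd0 : 0 < d := Nat.pos_of_mem_divisors hd
      rw [Complex.norm_natCast_cpow_of_pos hd0, Complex.sub_re, Complex.one_re, (hZ.1 ρ ρ.2).1,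
        Real.sqrt_eq_rpow]
      norm_num
    gcongr
  have h1 := hs.le_tsum 1 fun k _ => mul_nonneg (h.nonneg k) (sq_nonneg _)
  simpa [Wc] using h1

theorem EN_yes {c : ℕ → ℝ} (h : Good c) (hW : WM) :
    Tendsto (fun N : ℕ => (∑ n ∈ Finset.Icc 1 N, EN c n * (1 / (n : ℝ) - 1 / ((n : ℝ) + 1))) / Real.log N ^ 1)
      atTop (𝓝 (∑' ρ : NT, Wc c ρ / ‖(ρ : ℂ) * deriv riemannZeta ρ‖ ^ 2)) := by
  have hZ := WM_iff_ZC.1 hW
  rw [← (swap h hZ).2]
  obtain ⟨C, hC0, hC⟩ := unif hW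
  have hN1 : Tendsto (fun N : ℕ => ((N + 1 : ℕ) : ℝ)) atTop atTop :=
    tendsto_natCast_atTop_atTop.comp (tendsto_add_atTop_nat 1)
  have h1 : Tendsto (fun N : ℕ => ∑' k : ℕ, c k * (IE (Sh (hk k)) ((N + 1 : ℕ) : ℝ) /
      Real.log ((N + 1 : ℕ) : ℝ))) atTop (𝓝 (∑' k : ℕ, c k * SH (hk k))) := by
    apply tendsto_tsum_of_dominated_convergence (bound := fun k : ℕ => C * (c k * sg k ^ 2))
    · exact h.sum.mul_left C
    · intro k
      rcases Nat.eq_zero_or_pos k with rfl | hk1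
      · rw [h.zero]; simp
      · exact ((Pool.Agent.R754.WX.lim_yes (wgt_hk_summable hk1) hZ).comp hN1).const_mul (c k)
    · filter_upwards [eventually_ge_atTop 1] with N hN k
      have hx : (2:ℝ) ≤ ((N + 1 : ℕ) : ℝ) := by exact_mod_cast (by omega : 2 ≤ N + 1)
      have hlog : 0 < Real.log ((N + 1 : ℕ) : ℝ) := Real.log_pos (by linarith)
      have h0 : 0 ≤ IE (Sh (hk k)) ((N + 1 : ℕ) : ℝ) := IE_nonneg _ (by linarith)
      rw [Real.norm_of_nonneg (mul_nonneg (h.nonneg k) (div_nonneg h0 hlog.le))]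
      rcases Nat.eq_zero_or_pos k with rfl | hk1
      · rw [h.zero]; simp
      · have h2 : IE (Sh (hk k)) ((N + 1 : ℕ) : ℝ) / Real.log ((N + 1 : ℕ) : ℝ) ≤ C * sg k ^ 2 := by
          rw [div_le_iff₀ hlog]
          exact hC k hk1 _ hx
        calc c k * (IE (Sh (hk k)) ((N + 1 : ℕ) : ℝ) / Real.log ((N + 1 : ℕ) : ℝ)) ≤ c k * (C * sg k ^ 2) :=
              mul_le_mul_of_nonneg_left h2 (h.nonneg k)
          _ = _ := by ring
  have h2 := h1.mul log_ratio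
  rw [mul_one] at h2
  refine h2.congr' ?_
  filter_upwards [eventually_gt_atTop 1] with N hN
  have h3 : 0 < Real.log N := Real.log_pos (by exact_mod_cast hN)
  have h4 : 0 < Real.log ((N + 1 : ℕ) : ℝ) := Real.log_pos (by exact_mod_cast (by omega : 1 < N + 1))
  rw [EN_sum h]
  have h5 : ∑' k : ℕ, c k * (IE (Sh (hk k)) ((N + 1 : ℕ) : ℝ) / Real.log ((N + 1 : ℕ) : ℝ)) =
      (∑' k : ℕ, c k * IE (Sh (hk k)) ((N + 1 : ℕ) : ℝ)) / Real.log ((N + 1 : ℕ) : ℝ) := by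
    rw [← tsum_div_const]
    exact tsum_congr fun k => by ring
  rw [h5, pow_one]
  field_simp

theorem EN_no {c : ℕ → ℝ} (h : Good c) (hW : ¬ WM) :
    Tendsto (fun N : ℕ => (∑ n ∈ Finset.Icc 1 N, EN c n * (1 / (n : ℝ) - 1 / ((n : ℝ) + 1))) / Real.log N ^ 1)
      atTop atTop := by
  have hs1 := wgt_hk_summable (k := 1) le_rfl
  have h1 := Pool.Agent.R754.WX.lim_no (h := hk 1) (k := hk 1) (by rw [hk_one, mul_one]) hs1 hs1
    fun hZ => hW (WM_iff_ZC.2 hZ)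
  have h2 := int_to_sum_no (f := fun n : ℕ => TT 1 n ^ 2) (k := 1) (by
    refine h1.congr fun x => ?_
    rw [IE_int, pow_one])
  refine tendsto_atTop_mono' atTop ?_ (h2.const_mul_atTop h.one)
  filter_upwards [eventually_gt_atTop 1] with N hN
  have h3 : 0 < Real.log N := Real.log_pos (by exact_mod_cast hN)
  rw [← mul_div_assoc]
  apply div_le_div_of_nonneg_right _ (by positivity)
  rw [Finset.mul_sum]
  refine Finset.sum_le_sum fun n hn => ?_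
  rw [Finset.mem_Icc] at hn
  rw [← mul_assoc]
  apply mul_le_mul_of_nonneg_right _ (ff_pos hn.1)
  rw [EN_eq h]
  exact (TT_summable h.summable h.nonneg n).le_tsum 1 fun k _ => mul_nonneg (h.nonneg k) (sq_nonneg _)

/-- the mean energy -/
noncomputable def energy (c : ℕ → ℝ) (n : ℕ) : ℝ :=
  (∑ r ∈ farey n, ∑ q ∈ farey n, kernel c ((r : ℝ) - (q : ℝ))) / ((farey n).card : ℝ)

lemma energy_w (c : ℕ → ℝ) {n : ℕ} (hn : 1 ≤ n) :
    energy c n = wF n * (EN c n * (1 / (n : ℝ) - 1 / ((n : ℝ) + 1))) := by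
  have hc : (0:ℝ) < (farey n).card := by exact_mod_cast t1_card_pos hn
  have hn0 : (0:ℝ) < n := by exact_mod_cast hn
  unfold energy wF EN
  field_simp
  ring

theorem energy_crit {c : ℕ → ℝ} (h : Good c) : SCrit (energy c) 1 (Wc c) (Real.pi ^ 2 / 3) := by
  refine SCrit.intro (fun hW => ?_) (fun hW => ?_)
  · have hZ := WM_iff_ZC.1 hW
    have hs := (swap h hZ).1
    have hpos : 0 < ∑' ρ : NT, Wc c ρ / ‖(ρ : ℂ) * deriv riemannZeta ρ‖ ^ 2 := by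
      obtain ⟨ρ, hρ⟩ := Pool.Agent.TH223.AP.exists_zero
      have h1 := hZ.1 ρ hρ
      have h3 : ρ ≠ 0 := by
        rintro rfl
        simp at h1
      have h5 : 0 < ‖ρ * deriv riemannZeta ρ‖ := norm_pos_iff.2 (mul_ne_zero h3 h1.2)
      have h6 : ∀ ρ : NT, 0 ≤ Wc c ρ := fun ρ => h.one.le.trans (Wc_ge h hZ ρ)
      have h7 : 0 < Wc c ρ := lt_of_lt_of_le h.one (Wc_ge h hZ ⟨ρ, hρ⟩)
      exact hs.tsum_pos (fun ρ => div_nonneg (h6 ρ) (sq_nonneg _)) ⟨ρ, hρ⟩ (by positivity)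
    refine ⟨hs, hpos, ?_⟩
    have h4 := weight_yes (w := wF) (k := 1) le_rfl
      (fun n hn => mul_nonneg (EN_nonneg h n) (ff_pos hn)) wF_lim hpos (EN_yes h hW)
    refine h4.congr fun N => ?_
    congr 1
    refine Finset.sum_congr rfl fun n hn => ?_
    rw [energy_w c (Finset.mem_Icc.1 hn).1]
  · have h4 := weight_no (w := wF) (k := 1) one_pos
      (fun n hn => mul_nonneg (EN_nonneg h n) (ff_pos hn)) (fun n hn => wF_ge hn) (EN_no h hW)
    refine h4.congr fun N => ?_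
    congr 1
    refine Finset.sum_congr rfl fun n hn => ?_
    rw [energy_w c (Finset.mem_Icc.1 hn).1]

end Pool.Agent.Run7.h189.FD
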